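import Pool.Agent.PCS.Stmts

/-!
Squad PCS, row UBD: large orbits have few non trivial labels.
-/

namespace Pool.Agent.PCS.H25

open Pool.Agent.PCS

theorem orbit_root {Γ V : Type} [Group Γ] [MulAction Γ V] (T : Tree Γ V) (u : V)
    (hu : T.lv u = 0) : N Γ u = 1 := by
  have h : MulAction.orbit Γ u = {u} := by
    ext w
    constructor
    · rintro ⟨g, rfl⟩
      have h1 : T.lv (g • u) = 0 := by rw [T.lv_smul, hu]
      show g • u = u
      rw [T.eq_root _ h1, T.eq_root _ hu]
    · intro hw
      have hw' : w = u := hw
      rw [hw']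
      exact MulAction.mem_orbit_self u
  unfold N
  rw [h, Set.ncard_singleton]

theorem ubd (hL : LevStmt) (hI : ItpStmt) (hA : AhrStmt) : UbdStmt := by
  intro Γ V _ _ T S rk R hR
  obtain ⟨hd, hlev⟩ := hL Γ V T
  have hlv := (hI Γ V T).2.1
  -- downward induction
  have key : ∀ m h : ℕ, h + m = R + 1 → 1 ≤ h → ∃ C D : ℕ, ∀ (r : ℕ) (v : V),
      C * (r + 1) ^ D ≤ N Γ v → r * ah S rk h v < N Γ v := by
    intro m
    induction m with
    | zero =>
      intro h hh h1
      refine ⟨0, 0, ?_⟩
      intro r v _
      have h0 : ah S rk h v = 0 := by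
        unfold ah
        apply Finset.sum_eq_zero
        intro s hs
        have he : {w : V | w ∈ MulAction.orbit Γ v ∧ h ≤ rk s w} = ∅ := by
          ext w
          constructor
          · rintro ⟨_, hw⟩
            have := hR.le s hs w
            exfalso
            omega
          · intro hw
            exact absurd hw (Set.notMem_empty w)
        rw [he, Set.ncard_empty]
      rw [h0, Nat.mul_zero]
      exact (hlev v).2.1
    | succ m ih =>
      intro h hh h1
      obtain ⟨C, D, hCD⟩ := ih (h + 1) (by omega) (by omega)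
      refine ⟨(2 * S.card * T.d + 1) * ((C + 1) * 2 ^ D), D + 1, ?_⟩
      intro r v hv
      -- the threshold
      obtain ⟨t, ht⟩ : ∃ t : ℕ, t = (C + 1) * (2 * r + 1) ^ D := ⟨_, rfl⟩
      have ht1 : 1 ≤ t := by
        rw [ht]
        exact Nat.one_le_iff_ne_zero.mpr (by positivity)
      have hpow : (2 * r + 1) ^ D ≤ 2 ^ D * (r + 1) ^ D := by
        rw [← Nat.mul_pow]
        exact Nat.pow_le_pow_left (by omega) D
      have htle : t ≤ (C + 1) * 2 ^ D * (r + 1) ^ D := by
        rw [ht, Nat.mul_assoc]
        exact Nat.mul_le_mul_left _ hpow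
      have hbig : (2 * S.card * T.d * r + 1) * t ≤ N Γ v := by
        refine le_trans ?_ hv
        have e1 : (2 * S.card * T.d + 1) * ((C + 1) * 2 ^ D) * (r + 1) ^ (D + 1) =
            ((2 * S.card * T.d + 1) * (r + 1)) * ((C + 1) * 2 ^ D * (r + 1) ^ D) := by
          ring
        rw [e1]
        apply Nat.mul_le_mul _ htle
        have e2 : (2 * S.card * T.d + 1) * (r + 1) =
            2 * S.card * T.d * r + 1 + (2 * S.card * T.d + r) := by ring
        rw [e2]
        exact Nat.le_add_right _ _
      have htv : t ≤ N Γ v := by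
        refine le_trans ?_ hbig
        exact Nat.le_mul_of_pos_left t (by omega)
      -- the vertex
      classical
      obtain ⟨k, hk⟩ : ∃ k : ℕ, k = Nat.findGreatest (fun k => t ≤ N Γ (T.par^[k] v)) (T.lv v) :=
        ⟨_, rfl⟩
      have hkle : k ≤ T.lv v := by
        rw [hk]
        exact Nat.findGreatest_le _
      have hkt : t ≤ N Γ (T.par^[k] v) := by
        rw [hk]
        exact Nat.findGreatest_spec (P := fun k => t ≤ N Γ (T.par^[k] v)) (Nat.zero_le _) htv
      have hlvk : T.lv (T.par^[k] v) = T.lv v - k := hlv k v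
      have hNu : N Γ (T.par^[k] v) ≤ T.d * t := by
        rcases Nat.lt_or_ge k (T.lv v) with hlt | hge
        · have hn : ¬ t ≤ N Γ (T.par^[k + 1] v) := by
            refine Nat.findGreatest_is_greatest (P := fun k => t ≤ N Γ (T.par^[k] v))
              (n := T.lv v) (k := k + 1) ?_ ?_
            · rw [← hk]
              exact Nat.lt_succ_self k
            · exact hlt
          rw [Function.iterate_succ_apply'] at hn
          have hp : 0 < T.lv (T.par^[k] v) := by omega
          have h2 := ((hlev (T.par^[k] v)).2.2 hp).2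
          refine le_trans h2 ?_
          exact Nat.mul_le_mul_left _ (by omega)
        · have h0 : T.lv (T.par^[k] v) = 0 := by omega
          rw [orbit_root T _ h0]
          exact Nat.one_le_iff_ne_zero.mpr (by
            have : 0 < T.d * t := Nat.mul_pos (by omega) (by omega)
            omega)
      obtain ⟨u, hu⟩ : ∃ u : V, u = T.par^[k] v := ⟨_, rfl⟩
      rw [← hu] at hkt hNu
      have hA' := hA Γ V T S rk R hR h k v h1 hkle
      rw [← hu] at hA'
      have hC' : (2 * r) * ah S rk (h + 1) u < N Γ u := by
        apply hCD (2 * r) u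
        refine le_trans ?_ hkt
        rw [ht]
        exact Nat.mul_le_mul_right _ (Nat.le_succ C)
      -- final computation
      have hNu1 : 1 ≤ N Γ u := (hlev u).2.1
      have hNv1 : 1 ≤ N Γ v := (hlev v).2.1
      have hS : 2 * r * (S.card * N Γ u) ≤ N Γ v := by
        refine le_trans ?_ hbig
        calc 2 * r * (S.card * N Γ u) ≤ 2 * r * (S.card * (T.d * t)) :=
              Nat.mul_le_mul_left _ (Nat.mul_le_mul_left _ hNu)
          _ = (2 * S.card * T.d * r) * t := by ring
          _ ≤ (2 * S.card * T.d * r + 1) * t := Nat.mul_le_mul_right _ (Nat.le_succ _)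
      have h3 : N Γ u * (2 * (r * ah S rk h v)) < N Γ u * (2 * N Γ v) := by
        calc N Γ u * (2 * (r * ah S rk h v)) = 2 * r * (N Γ u * ah S rk h v) := by ring
          _ ≤ 2 * r * (S.card * N Γ u ^ 2 + N Γ v * ah S rk (h + 1) u) :=
              Nat.mul_le_mul_left _ hA'
          _ = N Γ u * (2 * r * (S.card * N Γ u)) + N Γ v * (2 * r * ah S rk (h + 1) u) := by ring
          _ < N Γ u * N Γ v + N Γ v * N Γ u := by
              apply Nat.add_lt_add_of_le_of_lt
              · exact Nat.mul_le_mul_left _ hS
              · exact Nat.mul_lt_mul_of_pos_left hC' (by omega)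
          _ = N Γ u * (2 * N Γ v) := by ring
      have h4 := Nat.lt_of_mul_lt_mul_left h3
      omega
  exact key R 1 (by omega) le_rfl

end Pool.Agent.PCS.H25
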